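import Pool.Agent.T63.RC.Seq
import Pool.Agent.H238R3.UL.Poly

/-!
# Weyl's theorem: polynomials with an irrational coefficient, and residue classes of their integral parts
-/

set_option autoImplicit false

namespace Pool.Agent.T63.RC

open MeasureTheory Filter Topology Polynomial Pool.Agent.N12.KM
open Pool.Agent.N24.KM (e)

theorem e_eq (x : ℝ) : Pool.Agent.H332R2.Lit.e x = e x := rfl

theorem weyl_lead (P : ℝ[X]) (hd : 1 ≤ P.natDegree) (hirr : Irrational P.leadingCoeff) :
    Tendsto (fun N : ℕ => (1 / (N : ℂ)) * ∑ n ∈ Finset.range N, e (P.eval (n : ℝ))) atTop (𝓝 0) := by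
  obtain ⟨d, hd'⟩ : ∃ d, P.natDegree = d + 1 := ⟨P.natDegree - 1, by omega⟩
  rw [Metric.tendsto_atTop]
  intro κ hκ
  obtain ⟨M, hM, h1⟩ := Pool.Agent.H238R3.UL.weyl_unif d (κ / 2) (by positivity)
  have hne : (Finset.Icc 1 M).Nonempty := ⟨1, Finset.mem_Icc.2 ⟨le_rfl, hM⟩⟩
  set g : ℕ → ℝ := fun m => |(m : ℝ) * P.coeff (d + 1) - round ((m : ℝ) * P.coeff (d + 1))| with hg
  have hgpos : ∀ m ∈ Finset.Icc 1 M, 0 < g m := by
    intro m hm
    rw [hg]
    refine abs_pos.2 fun h0 => ?_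
    have h2 : (m : ℝ) * P.coeff (d + 1) = (round ((m : ℝ) * P.coeff (d + 1)) : ℤ) := by linarith
    have h3 : Irrational ((m : ℝ) * P.leadingCoeff) := by
      have hm0 : m ≠ 0 := by
        have := (Finset.mem_Icc.1 hm).1
        omega
      exact hirr.natCast_mul hm0
    rw [Polynomial.leadingCoeff, hd'] at h3
    exact h3 ⟨(round ((m : ℝ) * P.coeff (d + 1)) : ℤ), by rw [h2]; simp⟩
  obtain ⟨m₀, hm₀, hmin⟩ := Finset.exists_min_image (Finset.Icc 1 M) g hne
  obtain ⟨N₀, h2⟩ := h1 (g m₀) (hgpos m₀ hm₀)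
  refine ⟨max 1 N₀, fun N hN => ?_⟩
  have hN1 : 1 ≤ N := (le_max_left _ _).trans hN
  have h3 := h2 P hd'.le (fun m hm => hmin m hm) N ((le_max_right _ _).trans hN)
  have hNR : (0 : ℝ) < N := by exact_mod_cast hN1
  rw [dist_zero_right, norm_mul, norm_div, norm_one, Complex.norm_natCast]
  have h4 : ∑ l ∈ Finset.range N, Pool.Agent.H332R2.Lit.e (P.eval (l : ℝ)) =
      ∑ n ∈ Finset.range N, e (P.eval (n : ℝ)) := rfl
  rw [h4] at h3
  calc 1 / (N : ℝ) * ‖∑ n ∈ Finset.range N, e (P.eval (n : ℝ))‖ ≤ 1 / (N : ℝ) * (κ / 2 * N) := by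
        gcongr
    _ = κ / 2 := by
        field_simp
    _ < κ := by linarith

theorem range_mul (u : ℕ → ℂ) (D S : ℕ) :
    ∑ n ∈ Finset.range (D * S), u n = ∑ r ∈ Finset.range D, ∑ s ∈ Finset.range S, u (D * s + r) := by
  rw [Finset.sum_comm]
  induction S with
  | zero => simp
  | succ S ih => rw [mul_add, mul_one, Finset.sum_range_add, ih, Finset.sum_range_succ]

/-- the means over the residue classes -/
theorem mean_classes (u : ℕ → ℂ) (hu : ∀ n, ‖u n‖ ≤ 1) (D : ℕ) (hD : 0 < D)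
    (h : ∀ r < D, Tendsto (fun S : ℕ => (1 / (S : ℂ)) * ∑ s ∈ Finset.range S, u (D * s + r))
      atTop (𝓝 0)) :
    Tendsto (fun N : ℕ => (1 / (N : ℂ)) * ∑ n ∈ Finset.range N, u n) atTop (𝓝 0) := by
  have h1 : Tendsto (fun S : ℕ => ∑ r ∈ Finset.range D,
      ‖(1 / (S : ℂ)) * ∑ s ∈ Finset.range S, u (D * s + r)‖) atTop (𝓝 0) := by
    rw [← Finset.sum_const_zero (s := Finset.range D)]
    refine tendsto_finsetSum _ fun r hr => ?_
    have := (h r (Finset.mem_range.1 hr)).norm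
    rwa [norm_zero] at this
  have h2 : Tendsto (fun N : ℕ => N / D) atTop atTop := Nat.tendsto_div_const_atTop hD.ne'
  have h3 : Tendsto (fun N : ℕ => (D : ℝ) / N + ∑ r ∈ Finset.range D,
      ‖(1 / ((N / D : ℕ) : ℂ)) * ∑ s ∈ Finset.range (N / D), u (D * s + r)‖) atTop (𝓝 0) := by
    have h4 := tendsto_const_div_atTop_nhds_zero_nat (D : ℝ)
    simpa using h4.add (h1.comp h2)
  refine squeeze_zero_norm' ?_ h3
  filter_upwards [eventually_ge_atTop D] with N hN
  have hS : 1 ≤ N / D := (Nat.one_le_div_iff hD).2 hN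
  have hSR : (0 : ℝ) < ((N / D : ℕ) : ℝ) := by exact_mod_cast hS
  have hNR : (0 : ℝ) < N := by
    have : 0 < N := by omega
    exact_mod_cast this
  have hSN : ((N / D : ℕ) : ℝ) ≤ N := by exact_mod_cast Nat.div_le_self N D
  have hsplit : ∑ n ∈ Finset.range N, u n =
      (∑ r ∈ Finset.range (N % D), u (D * (N / D) + r)) +
        ∑ r ∈ Finset.range D, ∑ s ∈ Finset.range (N / D), u (D * s + r) := by
    conv_lhs => rw [← Nat.div_add_mod N D]
    rw [Finset.sum_range_add, range_mul, add_comm]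
  rw [hsplit, mul_add]
  refine (norm_add_le _ _).trans (add_le_add ?_ ?_)
  · rw [norm_mul, norm_div, norm_one, Complex.norm_natCast, one_div, inv_mul_eq_div]
    gcongr
    refine (norm_sum_le _ _).trans ((Finset.sum_le_sum fun n _ => hu _).trans ?_)
    simp only [Finset.sum_const, Finset.card_range, nsmul_eq_mul, mul_one]
    exact_mod_cast (Nat.mod_lt N hD).le
  · rw [Finset.mul_sum]
    refine (norm_sum_le _ _).trans (Finset.sum_le_sum fun r _ => ?_)
    rw [norm_mul, norm_mul, norm_div, norm_div, norm_one, Complex.norm_natCast,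
      Complex.norm_natCast]
    gcongr

theorem e_add (x y : ℝ) : e (x + y) = e x * e y := Pool.Agent.N24.KM.Wey.e_add x y

theorem e_int (n : ℤ) : e (n : ℝ) = 1 := by
  unfold e
  rw [Complex.exp_eq_one_iff]
  exact ⟨n, by push_cast; ring⟩

/-- **Weyl's theorem** -/
theorem weyl (P : ℝ[X]) (k : ℕ) (hk : 1 ≤ k) (hirr : Irrational (P.coeff k)) :
    Tendsto (fun N : ℕ => (1 / (N : ℂ)) * ∑ n ∈ Finset.range N, e (P.eval (n : ℝ))) atTop (𝓝 0) := by
  classical
  -- the last irrational coefficient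
  set B : Finset ℕ := (Finset.range (P.natDegree + 1)).filter (fun j => Irrational (P.coeff j)) with hB
  have hkB : k ∈ B := by
    rw [hB, Finset.mem_filter, Finset.mem_range]
    refine ⟨?_, hirr⟩
    by_contra hlt
    rw [Polynomial.coeff_eq_zero_of_natDegree_lt (by omega)] at hirr
    exact not_irrational_zero hirr
  set K : ℕ := B.max' ⟨k, hkB⟩ with hK
  have hKB : K ∈ B := Finset.max'_mem _ _
  have hKk : k ≤ K := Finset.le_max' _ _ hkB
  have hKirr : Irrational (P.coeff K) := (Finset.mem_filter.1 hKB).2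
  have hrat : ∀ j, K < j → ∃ q : ℚ, P.coeff j = q := by
    intro j hj
    rcases Nat.lt_or_ge P.natDegree j with h | h
    · exact ⟨0, by rw [Polynomial.coeff_eq_zero_of_natDegree_lt h]; simp⟩
    · by_contra hcon
      push Not at hcon
      have : j ∈ B := by
        rw [hB, Finset.mem_filter, Finset.mem_range]
        refine ⟨by omega, ?_⟩
        rintro ⟨q, hq⟩
        exact hcon q hq.symm
      have := Finset.le_max' _ _ this
      omega
  choose! q hq using hrat
  -- the common denominator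
  set D : ℕ := ∏ j ∈ Finset.range (P.natDegree + 1), (q j).den with hDdef
  have hD : 0 < D := Finset.prod_pos fun j _ => (q j).den_pos
  have hDq : ∀ j, K < j → j ≤ P.natDegree → ∃ c : ℤ, (D : ℝ) * P.coeff j = c := by
    intro j hj hjn
    obtain ⟨c, hc⟩ : (q j).den ∣ D := Finset.dvd_prod_of_mem _ (Finset.mem_range.2 (by omega))
    refine ⟨(q j).num * c, ?_⟩
    rw [hq j hj, hc]
    have h1 : ((q j : ℚ) : ℝ) * ((q j).den : ℝ) = ((q j).num : ℝ) := by
      exact_mod_cast Rat.mul_den_eq_num (q j)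
    push_cast
    linear_combination (c : ℝ) * h1
  set L : ℝ[X] := ∑ j ∈ Finset.range (K + 1), Polynomial.monomial j (P.coeff j) with hL
  have hLc : ∀ j, L.coeff j = if j ≤ K then P.coeff j else 0 := by
    intro j
    rw [hL, Polynomial.finset_sum_coeff]
    simp only [Polynomial.coeff_monomial, Finset.sum_ite_eq', Finset.mem_range, Nat.lt_succ_iff]
  have hLdeg : L.natDegree = K := by
    refine le_antisymm ?_ ?_
    · rw [Polynomial.natDegree_le_iff_coeff_eq_zero]
      intro j hj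
      rw [hLc, if_neg (by omega)]
    · refine Polynomial.le_natDegree_of_ne_zero ?_
      rw [hLc, if_pos le_rfl]
      intro h0
      rw [h0] at hKirr
      exact not_irrational_zero hKirr
  have hLlead : L.leadingCoeff = P.coeff K := by
    rw [Polynomial.leadingCoeff, hLdeg, hLc, if_pos le_rfl]
  refine mean_classes _ (fun n => (norm_e _).le) D hD fun r _ => ?_
  set R : ℝ[X] := L.comp (Polynomial.C (D : ℝ) * Polynomial.X + Polynomial.C (r : ℝ)) with hR
  have hDR : (D : ℝ) ≠ 0 := by exact_mod_cast hD.ne'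
  have hlin : (Polynomial.C (D : ℝ) * Polynomial.X + Polynomial.C (r : ℝ)).natDegree = 1 :=
    Polynomial.natDegree_linear hDR
  have hRdeg : R.natDegree = K := by
    rw [hR, Polynomial.natDegree_comp, hLdeg, hlin, mul_one]
  have hRlead : R.leadingCoeff = P.coeff K * (D : ℝ) ^ K := by
    rw [hR, Polynomial.leadingCoeff_comp (by rw [hlin]; norm_num), hLlead, hLdeg,
      Polynomial.leadingCoeff_linear hDR]
  have hRirr : Irrational R.leadingCoeff := by
    rw [hRlead]
    have h1 : D ^ K ≠ 0 := pow_ne_zero _ hD.ne'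
    have h2 := hKirr.mul_natCast h1
    push_cast at h2
    exact h2
  have hw := weyl_lead R (by rw [hRdeg]; omega) hRirr
  set ρ : ℝ := ∑ j ∈ Finset.Ico (K + 1) (max (K + 1) (P.natDegree + 1)), P.coeff j * (r : ℝ) ^ j with hρ
  have hw2 : Tendsto (fun S : ℕ => e ρ * ((1 / (S : ℂ)) * ∑ s ∈ Finset.range S, e (R.eval (s : ℝ))))
      atTop (𝓝 0) := by
    simpa using hw.const_mul (e ρ)
  refine hw2.congr fun S => ?_
  rw [mul_left_comm, Finset.mul_sum]
  refine congrArg _ (Finset.sum_congr rfl fun s _ => ?_)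
  -- the value
  have hPe : P.eval (((D * s + r : ℕ)) : ℝ) = L.eval (((D * s + r : ℕ)) : ℝ) +
      ∑ j ∈ Finset.Ico (K + 1) (max (K + 1) (P.natDegree + 1)), P.coeff j * (((D * s + r : ℕ)) : ℝ) ^ j := by
    rw [Polynomial.eval_eq_sum_range' (n := max (K + 1) (P.natDegree + 1)) (by
        have := le_max_right (K + 1) (P.natDegree + 1)
        omega),
      Polynomial.eval_eq_sum_range' (p := L) (n := K + 1) (by rw [hLdeg]; omega),
      ← Finset.sum_range_add_sum_Ico _ (le_max_left (K + 1) (P.natDegree + 1))]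
    refine congrArg₂ _ (Finset.sum_congr rfl fun j hj => ?_) rfl
    rw [hLc, if_pos (by have := Finset.mem_range.1 hj; omega)]
  have hRe : R.eval (s : ℝ) = L.eval (((D * s + r : ℕ)) : ℝ) := by
    rw [hR, Polynomial.eval_comp]
    simp
  have hint : ∀ j ∈ Finset.Ico (K + 1) (max (K + 1) (P.natDegree + 1)), ∃ c : ℤ,
      P.coeff j * (((D * s + r : ℕ)) : ℝ) ^ j = P.coeff j * (r : ℝ) ^ j + c := by
    intro j hj
    rw [Finset.mem_Ico, lt_max_iff] at hj
    obtain ⟨c, hc⟩ := hDq j (by omega) (by omega)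
    have h1 : ((D * s : ℕ) : ℤ) ∣ ((D * s + r : ℕ) : ℤ) ^ j - (r : ℤ) ^ j := by
      have := sub_dvd_pow_sub_pow ((D * s + r : ℕ) : ℤ) (r : ℤ) j
      have h2 : ((D * s + r : ℕ) : ℤ) - (r : ℤ) = ((D * s : ℕ) : ℤ) := by push_cast; ring
      rwa [h2] at this
    obtain ⟨w, hw⟩ := h1
    refine ⟨c * (s * w), ?_⟩
    have h3 : (((D * s + r : ℕ)) : ℝ) ^ j - (r : ℝ) ^ j = ((D : ℝ) * s) * w := by
      exact_mod_cast hw
    push_cast
    push_cast at h3
    linear_combination (P.coeff j) * h3 + ((s : ℝ) * w) * hc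
  have hint2 : ∃ c : ℤ, ∑ j ∈ Finset.Ico (K + 1) (max (K + 1) (P.natDegree + 1)),
      P.coeff j * (((D * s + r : ℕ)) : ℝ) ^ j = ρ + c := by
    choose! c hc using hint
    refine ⟨∑ j ∈ Finset.Ico (K + 1) (max (K + 1) (P.natDegree + 1)), c j, ?_⟩
    rw [Finset.sum_congr rfl hc, Finset.sum_add_distrib, hρ]
    push_cast
    rfl
  obtain ⟨c, hc⟩ := hint2
  rw [hPe, hc, hRe, e_add, e_add, e_int, mul_one, mul_comm]

variable {ι : Type} [Fintype ι]

/-- **polynomial sequences of vectors** -/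
theorem polynomials (P : ι → ℝ[X])
    (hP : ∀ h : ι → ℤ, h ≠ 0 → ∃ k : ℕ, 1 ≤ k ∧ Irrational (∑ i, (h i : ℝ) * (P i).coeff k))
    (q : ℕ) (hq : 0 < q) (G : ι → ℤ) :
    Often (fun n i => ⌊(P i).eval (n : ℝ)⌋) (cls q G) (((q : ℝ) ^ Fintype.card ι)⁻¹) := by
  refine often_cls hT hq G (fun n i => (P i).eval (n : ℝ)) fun h hh => ?_
  obtain ⟨k, hk, hirr⟩ := hP h hh
  have hq0 : (q : ℝ) ≠ 0 := by exact_mod_cast hq.ne'
  have h1 := weyl (∑ i, Polynomial.C ((h i : ℝ) / q) * P i) k hk (by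
    rw [Polynomial.finset_sum_coeff]
    simp only [Polynomial.coeff_C_mul]
    have h2 : ∑ i, (h i : ℝ) / q * (P i).coeff k = (∑ i, (h i : ℝ) * (P i).coeff k) / (q : ℕ) := by
      rw [Finset.sum_div]
      exact Finset.sum_congr rfl fun i _ => by ring
    rw [h2]
    exact hirr.div_natCast hq.ne')
  refine h1.congr fun N => ?_
  refine congrArg _ (Finset.sum_congr rfl fun n _ => congrArg e ?_)
  rw [Polynomial.eval_finset_sum]
  refine Finset.sum_congr rfl fun i _ => ?_
  rw [Polynomial.eval_mul, Polynomial.eval_C]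
  ring

end Pool.Agent.T63.RC
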