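import Pool.Agent.T63.RC.Seq

/-!
# The powers of one number in residue classes
-/

set_option autoImplicit false

namespace Pool.Agent.T63.RC

open MeasureTheory Filter Topology Pool.Agent.N24.KM Pool.Agent.N12.KM

variable {ι : Type} [Fintype ι]

/-- the `k`-th derivatives of `∑ c_i x ^ (d_i s)` increase quickly with `s` -/
theorem dom (c : ι → ℝ) (J : ι) (hJ : c J ≠ 0) (d : ι → ℕ) (hd0 : ∀ i, 0 < d i)
    (hmax : ∀ i, i ≠ J → c i ≠ 0 → d i + 1 ≤ d J) (a : ℝ) (ha : 1 < a) :
    ∃ δ : ℝ, 0 < δ ∧ ∃ s₀ : ℕ, ∀ k : ℕ, k ≤ 2 → ∀ s t : ℕ, s₀ ≤ s → s < t → ∀ x : ℝ, a ≤ x →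
      δ ≤ (c J / |c J|) * (∑ i, c i * (((d i * t).descFactorial k : ℕ) * x ^ (d i * t - k)) -
        ∑ i, c i * (((d i * s).descFactorial k : ℕ) * x ^ (d i * s - k))) := by
  classical
  have hJ0 : 0 < |c J| := abs_pos.2 hJ
  have ha0 : 0 < a := by linarith
  set κ : ℝ := 1 - 1 / a with hκ
  have hκ0 : 0 < κ := by
    rw [hκ, sub_pos, div_lt_one ha0]
    exact ha
  set C : ℝ := ∑ i, |c i| with hC
  have hC0 : 0 ≤ C := Finset.sum_nonneg fun i _ => abs_nonneg _
  have hlim : Tendsto (fun t : ℕ => C * (1 / a) ^ t) atTop (𝓝 0) := by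
    have := (tendsto_pow_atTop_nhds_zero_of_lt_one (by positivity : (0 : ℝ) ≤ 1 / a)
      (by rw [div_lt_one ha0]; exact ha)).const_mul C
    simpa using this
  obtain ⟨s₁, hs₁⟩ := eventually_atTop.1 (hlim.eventually (gt_mem_nhds (by positivity : 0 < |c J| * κ / 2)))
  refine ⟨|c J| * κ / 2, by positivity, max 2 s₁, fun k hk s t hs hst x hx => ?_⟩
  have hs2 : 2 ≤ s := (le_max_left _ _).trans hs
  have hs1 : s₁ ≤ t := ((le_max_right _ _).trans hs).trans hst.le
  have hx1 : 1 < x := lt_of_lt_of_le ha hx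
  have hx0 : 0 < x := by linarith
  set W : ι → ℕ → ℝ := fun i n => ((d i * n).descFactorial k : ℕ) * x ^ (d i * n - k) with hW
  have hWmono : ∀ i, W i s ≤ W i t := by
    intro i
    simp only [hW]
    have h1 : d i * s ≤ d i * t := Nat.mul_le_mul_left _ hst.le
    have h2 : (d i * s).descFactorial k ≤ (d i * t).descFactorial k := Nat.descFactorial_le k h1
    have h3 : x ^ (d i * s - k) ≤ x ^ (d i * t - k) := pow_le_pow_right₀ hx1.le (by omega)
    gcongr
  have hW0 : ∀ i n, 0 ≤ W i n := fun i n => by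
    simp only [hW]
    positivity
  have hkd : ∀ i, ∀ n, 2 ≤ n → k ≤ d i * n := by
    intro i n hn
    have := Nat.mul_le_mul (hd0 i) hn
    omega
  -- the leading term
  have hlead : W J s ≤ W J t / a := by
    rw [le_div_iff₀ ha0]
    simp only [hW]
    have h1 : d J * s ≤ d J * t := Nat.mul_le_mul_left _ hst.le
    have h1' : d J * s + 1 ≤ d J * t := by
      have : d J * (s + 1) ≤ d J * t := Nat.mul_le_mul_left _ hst
      have h0 := hd0 J
      rw [mul_add, mul_one] at this
      omega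
    have h2 : (d J * s).descFactorial k ≤ (d J * t).descFactorial k := Nat.descFactorial_le k h1
    have h3 : x ^ (d J * s - k) * a ≤ x ^ (d J * t - k) := by
      calc x ^ (d J * s - k) * a ≤ x ^ (d J * s - k) * x := by gcongr
        _ = x ^ (d J * s - k + 1) := (pow_succ _ _).symm
        _ ≤ x ^ (d J * t - k) := pow_le_pow_right₀ hx1.le (by
            have := hkd J s hs2
            omega)
    rw [mul_assoc]
    gcongr
  -- the other terms
  have hother : ∀ i, i ≠ J → c i ≠ 0 → W i t ≤ W J t * (1 / a) ^ t := by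
    intro i hi hci
    rw [one_div, inv_pow, ← div_eq_mul_inv, le_div_iff₀ (by positivity)]
    simp only [hW]
    have h0 := hmax i hi hci
    have h1 : d i * t + t ≤ d J * t := by
      have := Nat.mul_le_mul_right t h0
      rw [add_mul, one_mul] at this
      exact this
    have h2 : (d i * t).descFactorial k ≤ (d J * t).descFactorial k :=
      Nat.descFactorial_le k (by omega)
    have h3 : x ^ (d i * t - k) * a ^ t ≤ x ^ (d J * t - k) := by
      calc x ^ (d i * t - k) * a ^ t ≤ x ^ (d i * t - k) * x ^ t := by gcongr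
        _ = x ^ (d i * t - k + t) := (pow_add _ _ _).symm
        _ ≤ x ^ (d J * t - k) := pow_le_pow_right₀ hx1.le (by
            have := hkd i t (by omega)
            omega)
    rw [mul_assoc]
    gcongr
  have hWJ1 : 1 ≤ W J t := by
    simp only [hW]
    have h1 : 1 ≤ (d J * t).descFactorial k :=
      Nat.succ_le_of_lt (Nat.descFactorial_pos.2 (hkd J t (by omega)))
    have h2 : 1 ≤ x ^ (d J * t - k) := one_le_pow₀ hx1.le
    have h3 : (1 : ℝ) ≤ ((d J * t).descFactorial k : ℕ) := by exact_mod_cast h1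
    nlinarith
  -- the sum
  have hsgn : abs (c J / |c J|) = 1 := by
    rw [abs_div, abs_abs, div_self hJ0.ne']
  have hJJ : c J / |c J| * c J = |c J| := by
    rw [div_mul_eq_mul_div, div_eq_iff hJ0.ne', abs_mul_abs_self]
  have hsum : (c J / |c J|) * (∑ i, c i * W i t - ∑ i, c i * W i s) =
      |c J| * (W J t - W J s) +
        ∑ i ∈ Finset.univ.erase J, (c J / |c J|) * c i * (W i t - W i s) := by
    rw [← Finset.sum_sub_distrib, ← Finset.add_sum_erase _ _ (Finset.mem_univ J), mul_add,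
      Finset.mul_sum]
    refine congrArg₂ _ ?_ (Finset.sum_congr rfl fun i _ => by ring)
    rw [← mul_sub, ← mul_assoc, hJJ]
  have hrest : -(C * (1 / a) ^ t * W J t) ≤
      ∑ i ∈ Finset.univ.erase J, (c J / |c J|) * c i * (W i t - W i s) := by
    have h1 : ∀ i ∈ Finset.univ.erase J, -(|c i| * ((1 / a) ^ t * W J t)) ≤
        (c J / |c J|) * c i * (W i t - W i s) := by
      intro i hi
      have hiJ := (Finset.mem_erase.1 hi).1
      rcases eq_or_ne (c i) 0 with h0 | h0
      · rw [h0]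
        simp
      · have h2 : |(c J / |c J|) * c i * (W i t - W i s)| ≤ |c i| * ((1 / a) ^ t * W J t) := by
          rw [abs_mul, abs_mul, hsgn, one_mul]
          refine mul_le_mul_of_nonneg_left ?_ (abs_nonneg _)
          rw [abs_of_nonneg (sub_nonneg.2 (hWmono i))]
          have h3 := hother i hiJ h0
          have h4 := hW0 i s
          linarith
        exact (abs_le.1 h2).1
    refine le_trans ?_ (Finset.sum_le_sum h1)
    rw [Finset.sum_neg_distrib, neg_le_neg_iff, ← Finset.sum_mul, mul_assoc]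
    refine mul_le_mul_of_nonneg_right ?_ (by
      have := hW0 J t
      positivity)
    rw [hC]
    exact Finset.sum_le_sum_of_subset_of_nonneg (Finset.erase_subset _ _) fun i _ _ => abs_nonneg _
  rw [hsum]
  have h5 := hs₁ t hs1
  have h6 : |c J| * (κ * W J t) ≤ |c J| * (W J t - W J s) := by
    refine mul_le_mul_of_nonneg_left ?_ hJ0.le
    rw [hκ, sub_mul, one_mul]
    have : 1 / a * W J t = W J t / a := by ring
    linarith
  have h7 : C * (1 / a) ^ t * W J t ≤ |c J| * κ / 2 * W J t :=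
    mul_le_mul_of_nonneg_right h5.le (hW0 J t)
  have h8 : |c J| * κ / 2 * 1 ≤ |c J| * κ / 2 * W J t :=
    mul_le_mul_of_nonneg_left hWJ1 (by positivity)
  linarith

theorem deriv_sum (c : ι → ℝ) (n : ι → ℕ) :
    deriv (fun x : ℝ => ∑ i, c i * x ^ n i) = fun x => ∑ i, c i * (((n i).descFactorial 1 : ℕ) *
      x ^ (n i - 1)) := by
  funext x
  refine HasDerivAt.deriv ?_
  refine HasDerivAt.fun_sum fun i _ => ?_
  have := (hasDerivAt_pow (n i) x).const_mul (c i)
  simpa using this

theorem deriv_sum2 (c : ι → ℝ) (n : ι → ℕ) :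
    deriv (deriv (fun x : ℝ => ∑ i, c i * x ^ n i)) =
      fun x => ∑ i, c i * (((n i).descFactorial 2 : ℕ) * x ^ (n i - 2)) := by
  rw [deriv_sum]
  funext x
  refine HasDerivAt.deriv ?_
  refine HasDerivAt.fun_sum fun i _ => ?_
  have h := ((hasDerivAt_pow (n i - 1) x).const_mul (((n i).descFactorial 1 : ℕ) : ℝ)).const_mul (c i)
  have h1 : (n i).descFactorial 2 = (n i - 1) * (n i).descFactorial 1 := Nat.descFactorial_succ _ _
  have h2 : c i * (((n i).descFactorial 1 : ℕ) * (((n i - 1 : ℕ) : ℝ) * x ^ (n i - 1 - 1))) =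
      c i * (((n i).descFactorial 2 : ℕ) * x ^ (n i - 2)) := by
    rw [h1, Nat.sub_sub]
    push_cast
    ring
  rw [← h2]
  exact h

theorem koksma_sum (c : ι → ℝ) (hc : c ≠ 0) (d : ι → ℕ) (hd : Function.Injective d)
    (hd0 : ∀ i, 0 < d i) (s : ℕ → ℕ) (hs : StrictMono s) (a b : ℝ) (ha : 1 < a) :
    ∃ n₀ : ℕ, Koksma a b (fun n x => ∑ i, c i * x ^ (d i * s (n + n₀))) := by
  classical
  obtain ⟨i₀, hi₀⟩ : ∃ i, c i ≠ 0 := by
    by_contra h
    push Not at h
    exact hc (funext h)
  obtain ⟨J, hJm, hJ⟩ := Finset.exists_max_image (Finset.univ.filter fun i => c i ≠ 0) d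
    ⟨i₀, by simp [hi₀]⟩
  have hJ0 : c J ≠ 0 := (Finset.mem_filter.1 hJm).2
  have hmax : ∀ i, i ≠ J → c i ≠ 0 → d i + 1 ≤ d J := by
    intro i hi hci
    have h1 := hJ i (by simp [hci])
    have h2 : d i ≠ d J := fun h => hi (hd h)
    omega
  obtain ⟨δ, hδ, s₀, hmain⟩ := dom c J hJ0 d hd0 hmax a ha
  refine ⟨s₀, fun n => ?_, δ, hδ, fun m n hmn => ?_⟩
  · exact ContDiff.sum fun i _ => contDiff_const.mul (contDiff_id.pow _)
  · have hge : ∀ n : ℕ, s₀ ≤ s (n + s₀) := fun n => by
      have := hs.id_le (n + s₀)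
      simp only [id_eq] at this
      omega
    have hJ1 : 0 < |c J| := abs_pos.2 hJ0
    have hsgn : abs (c J / |c J|) = 1 := by
      rw [abs_div, abs_abs, div_self hJ1.ne']
    have key : ∀ k : ℕ, k ≤ 2 → ∀ m n : ℕ, n < m → ∀ x ∈ Set.Icc a b,
        δ ≤ (c J / |c J|) * (∑ i, c i * (((d i * s (m + s₀)).descFactorial k : ℕ) *
          x ^ (d i * s (m + s₀) - k)) -
          ∑ i, c i * (((d i * s (n + s₀)).descFactorial k : ℕ) * x ^ (d i * s (n + s₀) - k))) := by
      intro k hk m n hnm x hx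
      exact hmain k hk _ _ (hge n) (hs (by omega)) x hx.1
    have habs : ∀ u : ℝ, δ ≤ (c J / |c J|) * u → δ ≤ |u| := by
      intro u hu
      refine hu.trans ((le_abs_self _).trans ?_)
      rw [abs_mul, hsgn, one_mul]
    refine ⟨fun x hx => ?_, ?_⟩
    · simp only [deriv_sum]
      rcases lt_or_gt_of_ne hmn with h | h
      · rw [abs_sub_comm]
        exact habs _ (key 1 (by norm_num) n m h x hx)
      · exact habs _ (key 1 (by norm_num) m n h x hx)
    · simp only [deriv_sum2]
      rcases lt_or_gt_of_ne hJ0 with hneg | hpos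
      · have hs1 : c J / |c J| = -1 := by
          rw [abs_of_neg hneg, div_neg, div_self hJ0]
        rcases lt_or_gt_of_ne hmn with h | h
        · left
          intro x hx
          have := key 2 le_rfl n m h x hx
          rw [hs1] at this
          linarith
        · right
          intro x hx
          have := key 2 le_rfl m n h x hx
          rw [hs1] at this
          linarith
      · have hs1 : c J / |c J| = 1 := by
          rw [abs_of_pos hpos, div_self hJ0]
        rcases lt_or_gt_of_ne hmn with h | h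
        · right
          intro x hx
          have := key 2 le_rfl n m h x hx
          rw [hs1] at this
          linarith
        · left
          intro x hx
          have := key 2 le_rfl m n h x hx
          rw [hs1] at this
          linarith

/-- **the powers of one number** -/
theorem powers (d : ι → ℕ) (hd : Function.Injective d) (hd0 : ∀ i, 0 < d i) (ξ : ι → ℝ)
    (hξ : ∀ i, ξ i ≠ 0) (s : ℕ → ℕ) (hs : StrictMono s) :
    ∀ᵐ α : ℝ, 1 < α → ∀ (q : ℕ), 0 < q → ∀ G : ι → ℤ,
      Often (fun n i => ⌊ξ i * α ^ (d i * s n)⌋) (cls q G) (((q : ℝ) ^ Fintype.card ι)⁻¹) := by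
  have h1 : ∀ p : ℕ × {h : ι → ℤ // h ≠ 0} × ℕ, ∀ᵐ α : ℝ, 0 < p.1 →
      α ∈ Set.Icc (1 + 1 / ((p.2.2 : ℝ) + 1)) ((p.2.2 : ℝ) + 3) →
      Tendsto (fun N : ℕ => (1 / (N : ℂ)) * ∑ n ∈ Finset.range N,
        e (∑ i, ((p.2.1.1 i : ℝ) * ξ i / p.1) * α ^ (d i * s n))) atTop (𝓝 0) := by
    rintro ⟨q, ⟨h, hh⟩, j⟩
    rcases Nat.eq_zero_or_pos q with h0 | h0
    · exact Filter.Eventually.of_forall fun α hα => absurd h0 hα.ne'
    · have hq : (0 : ℝ) < q := Nat.cast_pos.2 h0
      have hj : (0 : ℝ) ≤ j := Nat.cast_nonneg j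
      have hj1 : (1 : ℝ) / ((j : ℝ) + 1) ≤ 1 := by
        rw [div_le_one (by linarith)]
        linarith
      have hj2 : (0 : ℝ) < 1 / ((j : ℝ) + 1) := by positivity
      obtain ⟨n₀, hn₀⟩ := koksma_sum (fun i => (h i : ℝ) * ξ i / q) (by
        intro hz
        apply hh
        funext i
        have := congrFun hz i
        simp only [Pi.zero_apply, div_eq_zero_iff, mul_eq_zero, hq.ne', or_false, hξ i] at this
        exact_mod_cast this) d hd hd0 s hs (1 + 1 / ((j : ℝ) + 1)) ((j : ℝ) + 3) (by linarith)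
      have h3 := one_var (fun n x => ∑ i, ((h i : ℝ) * ξ i / q) * x ^ (d i * s n))
        (1 + 1 / ((j : ℝ) + 1)) ((j : ℝ) + 3) (by linarith) n₀ hn₀
      filter_upwards [h3] with α hα _
      exact hα
  filter_upwards [ae_all_iff.2 h1] with α hα hα1 q hq G
  refine often_cls hT hq G (fun n i => ξ i * α ^ (d i * s n)) fun h hh => ?_
  obtain ⟨j₁, hj₁⟩ := exists_nat_ge (1 / (α - 1))
  obtain ⟨j₂, hj₂⟩ := exists_nat_ge α
  have hα0 : 0 < α - 1 := by linarith
  have h5 := hα (q, ⟨h, hh⟩, max j₁ j₂) hq ⟨by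
    simp only
    have h6 : 1 / (((max j₁ j₂ : ℕ) : ℝ) + 1) ≤ α - 1 := by
      rw [div_le_iff₀ (by positivity)]
      have h7 : (j₁ : ℝ) ≤ ((max j₁ j₂ : ℕ) : ℝ) := by exact_mod_cast le_max_left _ _
      have h8 : 1 / (α - 1) ≤ ((max j₁ j₂ : ℕ) : ℝ) + 1 := by linarith
      rw [div_le_iff₀ hα0] at h8
      linarith
    linarith, by
    simp only
    have h7 : (j₂ : ℝ) ≤ ((max j₁ j₂ : ℕ) : ℝ) := by exact_mod_cast le_max_right _ _
    linarith⟩
  refine h5.congr fun N => ?_
  refine congrArg _ (Finset.sum_congr rfl fun n _ => congrArg e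
    (Finset.sum_congr rfl fun i _ => ?_))
  simp only
  ring

end Pool.Agent.T63.RC
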