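import Pool.Agent.N12.KM.Cls
import Pool.Agent.N24.KM.Int
import Pool.Agent.N24.KM.Sep
import Pool.Agent.N24.KM.Ae
import Pool.Agent.N24.KM.Wey
import Pool.Agent.N24.KM.Tor

/-!
# Integral vectors driven by one real number

The vectors `⌊a_i(n) α⌋` (one multiplier `α` for all coordinates) and `⌊ξ_i α ^ (d_i s_n)⌋` (the powers of
one number) are in every residue class with the natural frequency, for almost all real `α`.
-/

set_option autoImplicit false

namespace Pool.Agent.T63.RC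

open MeasureTheory Filter Topology Pool.Agent.N24.KM Pool.Agent.N12.KM

theorem hW : S_WEY := t_WEY t_INT t_SEP t_AE

theorem hT : S_TOR := t_TOR

theorem norm_e (x : ℝ) : ‖e x‖ = 1 := Wey.norm_e x

/-- a finite number of terms does not matter for the means -/
theorem mean_shift (u : ℕ → ℂ) (hu : ∀ n, ‖u n‖ ≤ 1) (n₀ : ℕ)
    (h : Tendsto (fun N : ℕ => (1 / (N : ℂ)) * ∑ n ∈ Finset.range N, u (n + n₀)) atTop (𝓝 0)) :
    Tendsto (fun N : ℕ => (1 / (N : ℂ)) * ∑ n ∈ Finset.range N, u n) atTop (𝓝 0) := by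
  have h1 : Tendsto (fun N : ℕ => (2 * n₀ : ℝ) / N +
      ‖(1 / (N : ℂ)) * ∑ n ∈ Finset.range N, u (n + n₀)‖) atTop (𝓝 0) := by
    have h2 := tendsto_const_div_atTop_nhds_zero_nat (2 * n₀ : ℝ)
    have h3 := h.norm
    rw [norm_zero] at h3
    simpa using h2.add h3
  refine squeeze_zero_norm (fun N => ?_) h1
  have h4 : ∑ n ∈ Finset.range N, u n = ∑ n ∈ Finset.range N, u (n + n₀) +
      (∑ n ∈ Finset.range n₀, u n - ∑ n ∈ Finset.range n₀, u (N + n)) := by
    have h5 : ∑ n ∈ Finset.range (N + n₀), u n = ∑ n ∈ Finset.range N, u n +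
        ∑ n ∈ Finset.range n₀, u (N + n) := Finset.sum_range_add _ _ _
    have h6 : ∑ n ∈ Finset.range (n₀ + N), u n = ∑ n ∈ Finset.range n₀, u n +
        ∑ n ∈ Finset.range N, u (n₀ + n) := Finset.sum_range_add _ _ _
    have h7 : ∑ n ∈ Finset.range N, u (n + n₀) = ∑ n ∈ Finset.range N, u (n₀ + n) :=
      Finset.sum_congr rfl fun n _ => by rw [add_comm]
    rw [add_comm n₀ N] at h6
    rw [h7]
    linear_combination h6 - h5
  rw [h4, mul_add]
  refine (norm_add_le _ _).trans ?_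
  rw [add_comm]
  refine add_le_add ?_ le_rfl
  rw [norm_mul]
  have h8 : ‖∑ n ∈ Finset.range n₀, u n - ∑ n ∈ Finset.range n₀, u (N + n)‖ ≤ 2 * n₀ := by
    refine (norm_sub_le _ _).trans ?_
    have h9 : ∀ v : ℕ → ℂ, (∀ n, ‖v n‖ ≤ 1) → ‖∑ n ∈ Finset.range n₀, v n‖ ≤ n₀ := by
      intro v hv
      refine (norm_sum_le _ _).trans ?_
      refine (Finset.sum_le_sum fun n _ => hv n).trans ?_
      simp
    have := h9 u hu
    have := h9 (fun n => u (N + n)) (fun n => hu _)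
    linarith
  have h10 : ‖(1 / (N : ℂ))‖ = 1 / (N : ℝ) := by
    rw [norm_div, norm_one]
    simp
  rw [h10]
  rcases Nat.eq_zero_or_pos N with h0 | h0
  · subst h0
    simp
  · have hN : (0 : ℝ) < N := Nat.cast_pos.2 h0
    rw [one_div, inv_mul_eq_div]
    gcongr

/-- Koksma's theorem in one variable, for a sequence of functions which satisfies the hypothesis from
some point on -/
theorem one_var (g : ℕ → ℝ → ℝ) (a b : ℝ) (hab : a < b) (n₀ : ℕ)
    (hK : Koksma a b (fun n => g (n + n₀))) :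
    ∀ᵐ x : ℝ, x ∈ Set.Icc a b →
      Tendsto (fun N : ℕ => (1 / (N : ℂ)) * ∑ n ∈ Finset.range N, e (g n x)) atTop (𝓝 0) := by
  have h1 := hW Unit (fun _ => a) (fun _ => b) (fun _ n => g (n + n₀)) (fun _ => hab) (fun _ => hK)
    (fun _ => 1) (by
      intro h
      have := congrFun h ()
      simp at this)
  have h2 : ∀ᵐ x : ℝ, (∀ i : Unit, (fun _ : Unit => x) i ∈ Set.Icc a b) →
      Tendsto (fun N : ℕ => (1 / (N : ℂ)) * ∑ n ∈ Finset.range N,
        e (∑ i : Unit, 1 * g (n + n₀) ((fun _ : Unit => x) i))) atTop (𝓝 0) := by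
    have h3 := (volume_preserving_funUnique Unit ℝ).symm
    have h4 := h3.quasiMeasurePreserving.ae h1
    exact h4
  filter_upwards [h2] with x hx hxab
  have h5 := hx (fun _ => hxab)
  refine mean_shift (fun n => e (g n x)) (fun n => (norm_e _).le) n₀ ?_
  simpa using h5

/-- **one multiplier** -/
theorem multiplier {ι : Type} [Fintype ι] (a : ι → ℕ → ℝ)
    (ha : ∀ h : ι → ℤ, h ≠ 0 → ∃ δ : ℝ, 0 < δ ∧ ∃ n₀ : ℕ, ∀ m n : ℕ, n₀ ≤ m → n₀ ≤ n → m ≠ n →
      δ ≤ |∑ i, (h i : ℝ) * a i m - ∑ i, (h i : ℝ) * a i n|) :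
    ∀ᵐ α : ℝ, ∀ (q : ℕ), 0 < q → ∀ G : ι → ℤ,
      Often (fun n i => ⌊a i n * α⌋) (cls q G) (((q : ℝ) ^ Fintype.card ι)⁻¹) := by
  have h1 : ∀ p : ℕ × {h : ι → ℤ // h ≠ 0} × ℕ, ∀ᵐ α : ℝ, 0 < p.1 →
      α ∈ Set.Icc (-((p.2.2 : ℝ) + 1)) ((p.2.2 : ℝ) + 1) →
      Tendsto (fun N : ℕ => (1 / (N : ℂ)) * ∑ n ∈ Finset.range N,
        e ((∑ i, (p.2.1.1 i : ℝ) * a i n) / p.1 * α)) atTop (𝓝 0) := by
    rintro ⟨q, ⟨h, hh⟩, j⟩
    rcases Nat.eq_zero_or_pos q with h0 | h0
    · exact Filter.Eventually.of_forall fun α hα => absurd h0 hα.ne'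
    · obtain ⟨δ, hδ, n₀, hsep⟩ := ha h hh
      have hq : (0 : ℝ) < q := Nat.cast_pos.2 h0
      have h3 := one_var (fun n x => (∑ i, (h i : ℝ) * a i n) / q * x) (-((j : ℝ) + 1)) ((j : ℝ) + 1)
        (by have : (0 : ℝ) ≤ j := Nat.cast_nonneg j
            linarith) n₀
        (koksma_mul (a := fun n => (∑ i, (h i : ℝ) * a i (n + n₀)) / q) (δ := δ / q)
          (by positivity) (by
            intro m n hmn
            rw [← sub_div, abs_div, abs_of_pos hq]
            have := hsep (m + n₀) (n + n₀) (by omega) (by omega) (by omega)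
            gcongr) _ _)
      filter_upwards [h3] with α hα _
      exact hα
  filter_upwards [ae_all_iff.2 h1] with α hα q hq G
  refine often_cls hT hq G (fun n i => a i n * α) fun h hh => ?_
  obtain ⟨j, hj⟩ := exists_nat_ge |α|
  have h4 := abs_le.1 hj
  have h5 := hα (q, ⟨h, hh⟩, j) hq ⟨by simp only; linarith, by simp only; linarith⟩
  refine h5.congr fun N => ?_
  refine congrArg _ (Finset.sum_congr rfl fun n _ => congrArg e ?_)
  simp only
  rw [Finset.sum_div, Finset.sum_mul]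
  exact Finset.sum_congr rfl fun i _ => by ring

end Pool.Agent.T63.RC
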