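import Pool.Agent.T63.RC.Seq

/-!
# Random walks in `ℤ^ι` in residue classes
-/

set_option autoImplicit false

namespace Pool.Agent.T63.RC

open MeasureTheory Filter Topology ProbabilityTheory Pool.Agent.N12.KM
open Pool.Agent.N24.KM (e)

theorem ee_add (x y : ℝ) : e (x + y) = e x * e y := Pool.Agent.N24.KM.Wey.e_add x y

theorem ee_int (n : ℤ) : e (n : ℝ) = 1 := by
  unfold e
  rw [Complex.exp_eq_one_iff]
  exact ⟨n, by push_cast; ring⟩

theorem e_nat_mul (n : ℕ) (x : ℝ) : e (n * x) = e x ^ n := by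
  unfold e
  rw [← Complex.exp_nat_mul]
  congr 1
  push_cast
  ring

/-- `e x = 1` only for integers -/
theorem e_eq_one {x : ℝ} (h : e x = 1) : ∃ n : ℤ, x = n := by
  unfold e at h
  rw [Complex.exp_eq_one_iff] at h
  obtain ⟨n, hn⟩ := h
  refine ⟨n, ?_⟩
  have h1 : (2 * Real.pi * Complex.I : ℂ) ≠ 0 := by
    simp [Real.pi_ne_zero]
  have h2 : (x : ℂ) * (2 * Real.pi * Complex.I) = n * (2 * Real.pi * Complex.I) := by
    rw [← hn]
    ring
  have h3 := mul_right_cancel₀ h1 h2
  exact_mod_cast h3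

theorem sum_chars {q : ℕ} (hq : 0 < q) (z : ℤ) :
    ∑ a ∈ Finset.range q, e ((a : ℝ) * z / q) = if (q : ℤ) ∣ z then (q : ℂ) else 0 := by
  have hq0 : (q : ℝ) ≠ 0 := by exact_mod_cast hq.ne'
  have h1 : ∀ a : ℕ, e ((a : ℝ) * z / q) = e ((z : ℝ) / q) ^ a := by
    intro a
    rw [← e_nat_mul]
    congr 1
    ring
  simp only [h1]
  split_ifs with h
  · obtain ⟨w, hw⟩ := h
    have h2 : (z : ℝ) / q = w := by
      rw [hw]
      push_cast
      field_simp
    rw [h2, ee_int]
    simp
  · have hne : e ((z : ℝ) / q) ≠ 1 := by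
      intro h2
      obtain ⟨n, hn⟩ := e_eq_one h2
      apply h
      refine ⟨n, ?_⟩
      rw [div_eq_iff hq0] at hn
      have h3 : (z : ℝ) = ((q : ℤ) * n : ℤ) := by
        rw [hn]
        push_cast
        ring
      exact_mod_cast h3
    have h3 := mul_neg_geom_sum (e ((z : ℝ) / q)) q
    have h4 : e ((z : ℝ) / q) ^ q = 1 := by
      rw [← e_nat_mul]
      have h5 : (q : ℝ) * (z / q) = (z : ℤ) := by
        field_simp
      rw [h5, ee_int]
    rw [h4, sub_self] at h3
    rcases mul_eq_zero.1 h3 with h5 | h5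
    · exact absurd (sub_eq_zero.1 h5).symm hne
    · exact h5

variable {ι : Type} [Fintype ι]

/-- integral vectors: from exponential sums to residue classes -/
theorem often_int {q : ℕ} (hq : 0 < q) (G : ι → ℤ) (c : ℕ → ι → ℤ)
    (hx : ∀ h : ι → ℕ, (∀ i, h i < q) → h ≠ 0 → Tendsto (fun N : ℕ => (1 / (N : ℂ)) *
      ∑ n ∈ Finset.range N, e (∑ i, (h i : ℝ) / q * c n i)) atTop (𝓝 0)) :
    Often c (cls q G) (((q : ℝ) ^ Fintype.card ι)⁻¹) := by
  classical
  have hq0 : (q : ℝ) ≠ 0 := by exact_mod_cast hq.ne'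
  set I : Finset (ι → ℕ) := Fintype.piFinset (fun _ : ι => Finset.range q) with hI
  have hind : ∀ n, ∑ h ∈ I, e (∑ i, (h i : ℝ) / q * (c n i - G i)) =
      if c n ∈ cls q G then (q : ℂ) ^ Fintype.card ι else 0 := by
    intro n
    have h1 : ∀ h : ι → ℕ, e (∑ i, (h i : ℝ) / q * (c n i - G i)) =
        ∏ i, e ((h i : ℝ) * ((c n i - G i : ℤ) : ℝ) / q) := by
      intro h
      rw [← Pool.Agent.N24.KM.Wey.e_sum]
      congr 1
      refine Finset.sum_congr rfl fun i _ => ?_
      push_cast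
      ring
    simp only [h1]
    rw [hI, ← Finset.prod_univ_sum (fun _ : ι => Finset.range q)
      (fun i a => e ((a : ℝ) * ((c n i - G i : ℤ) : ℝ) / q))]
    simp only [sum_chars hq]
    split_ifs with h
    · rw [Finset.prod_congr rfl fun i _ => if_pos (h i)]
      simp
    · obtain ⟨i, hi⟩ : ∃ i, ¬ (q : ℤ) ∣ c n i - G i := by
        by_contra hcon
        push Not at hcon
        exact h hcon
      exact Finset.prod_eq_zero (Finset.mem_univ i) (if_neg hi)
  have hcount : ∀ N : ℕ, ((({n : ℕ | n < N ∧ c n ∈ cls q G}.ncard : ℕ) : ℂ)) * (q : ℂ) ^ Fintype.card ι =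
      ∑ h ∈ I, e (-∑ i, (h i : ℝ) / q * G i) * ∑ n ∈ Finset.range N, e (∑ i, (h i : ℝ) / q * c n i) := by
    intro N
    have h2 : {n : ℕ | n < N ∧ c n ∈ cls q G} =
        (((Finset.range N).filter fun n => c n ∈ cls q G : Finset ℕ) : Set ℕ) := by
      ext n
      simp
    rw [h2, Set.ncard_coe_finset, Finset.card_filter]
    push_cast
    rw [Finset.sum_mul]
    have h3 : ∀ n, (if c n ∈ cls q G then (1 : ℂ) else 0) * (q : ℂ) ^ Fintype.card ι =
        ∑ h ∈ I, e (-∑ i, (h i : ℝ) / q * G i) * e (∑ i, (h i : ℝ) / q * c n i) := by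
      intro n
      rw [ite_mul, one_mul, zero_mul, ← hind n]
      refine Finset.sum_congr rfl fun h _ => ?_
      rw [← ee_add]
      congr 1
      rw [neg_add_eq_sub, ← Finset.sum_sub_distrib]
      exact Finset.sum_congr rfl fun i _ => by ring
    simp only [h3]
    rw [Finset.sum_comm]
    exact Finset.sum_congr rfl fun h _ => by rw [Finset.mul_sum]
  have hlim : Tendsto (fun N : ℕ => (1 / (N : ℂ)) *
      (((({n : ℕ | n < N ∧ c n ∈ cls q G}.ncard : ℕ) : ℂ)) * (q : ℂ) ^ Fintype.card ι)) atTop (𝓝 1) := by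
    have h4 : ∀ h ∈ I, Tendsto (fun N : ℕ => e (-∑ i, (h i : ℝ) / q * G i) * ((1 / (N : ℂ)) *
        ∑ n ∈ Finset.range N, e (∑ i, (h i : ℝ) / q * c n i))) atTop (𝓝 (if h = 0 then 1 else 0)) := by
      intro h hh
      split_ifs with h0
      · subst h0
        have h5 : ∀ N : ℕ, 1 ≤ N → e (-∑ i, (((0 : ι → ℕ) i : ℕ) : ℝ) / q * G i) * ((1 / (N : ℂ)) *
            ∑ n ∈ Finset.range N, e (∑ i, (((0 : ι → ℕ) i : ℕ) : ℝ) / q * c n i)) = 1 := by
          intro N hN
          have hN0 : (N : ℂ) ≠ 0 := by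
            have : N ≠ 0 := by omega
            exact_mod_cast this
          have h6 : e 0 = 1 := by
            have := ee_int 0
            simpa using this
          simp only [Pi.zero_apply, Nat.cast_zero, zero_div, zero_mul, Finset.sum_const_zero, neg_zero,
            h6, Finset.sum_const, Finset.card_range, nsmul_eq_mul, mul_one, one_mul]
          field_simp
        refine tendsto_const_nhds.congr' ?_
        filter_upwards [eventually_ge_atTop 1] with N hN
        exact (h5 N hN).symm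
      · have h7 := hx h (fun i => Finset.mem_range.1 (Fintype.mem_piFinset.1 hh i)) h0
        simpa using h7.const_mul (e (-∑ i, (h i : ℝ) / q * G i))
    have h8 := tendsto_finsetSum I h4
    have h9 : ∑ h ∈ I, (if h = 0 then (1 : ℂ) else 0) = 1 := by
      rw [Finset.sum_ite_eq' I (0 : ι → ℕ) (fun _ => (1 : ℂ)), if_pos]
      rw [hI, Fintype.mem_piFinset]
      intro i
      simpa using hq
    rw [h9] at h8
    refine h8.congr fun N => ?_
    rw [hcount N, Finset.mul_sum]
    exact Finset.sum_congr rfl fun h _ => by ring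
  intro ε hε
  set s : ℝ := (q : ℝ) ^ Fintype.card ι with hs
  have hs0 : 0 < s := by
    have : (0 : ℝ) < q := by exact_mod_cast hq
    positivity
  have hlim2 : Tendsto (fun N : ℕ => (({n : ℕ | n < N ∧ c n ∈ cls q G}.ncard : ℕ) : ℝ) / N) atTop
      (𝓝 s⁻¹) := by
    have h10 := (hlim.div_const ((s : ℂ))).norm
    have h11 := hlim.div_const ((s : ℂ))
    have h12 : Tendsto (fun N : ℕ => (((({n : ℕ | n < N ∧ c n ∈ cls q G}.ncard : ℕ) : ℝ) / N : ℝ) : ℂ))
        atTop (𝓝 (((s⁻¹ : ℝ)) : ℂ)) := by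
      have h13 : (1 : ℂ) / (s : ℂ) = (((s⁻¹ : ℝ)) : ℂ) := by
        push_cast
        rw [one_div]
      rw [← h13]
      refine h11.congr fun N => ?_
      have h14 : (s : ℂ) = (q : ℂ) ^ Fintype.card ι := by
        rw [hs]
        push_cast
        rfl
      have h15 : (q : ℂ) ^ Fintype.card ι ≠ 0 := by
        have : (q : ℂ) ≠ 0 := by exact_mod_cast hq.ne'
        exact pow_ne_zero _ this
      rw [h14]
      push_cast
      field_simp
    have h16 := (Complex.continuous_re.tendsto _).comp h12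
    refine h16.congr fun N => ?_
    simp only [Function.comp_apply, Complex.ofReal_re]
  filter_upwards [hlim2.eventually (lt_mem_nhds (show s⁻¹ - ε < s⁻¹ by linarith)),
    eventually_ge_atTop 1] with N hN hN1
  have hNR : (0 : ℝ) < N := by
    have : 0 < N := hN1
    exact_mod_cast this
  rw [lt_div_iff₀ hNR] at hN
  exact hN.le

variable {Ω : Type} [MeasurableSpace Ω]

/-- the random walk with start `v` and steps `X 0, X 1, …` -/
def walk (v : ι → ℤ) (X : ℕ → Ω → ι → ℤ) (n : ℕ) (ω : Ω) : ι → ℤ :=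
  v + ∑ k ∈ Finset.range n, X k ω

/-- the character -/
noncomputable def chi (θ : ι → ℝ) (x : ι → ℤ) : ℂ := e (∑ i, θ i * x i)

theorem chi_add (θ : ι → ℝ) (x y : ι → ℤ) : chi θ (x + y) = chi θ x * chi θ y := by
  unfold chi
  rw [← ee_add, ← Finset.sum_add_distrib]
  congr 1
  refine Finset.sum_congr rfl fun i _ => ?_
  rw [Pi.add_apply]
  push_cast
  ring

theorem chi_zero (θ : ι → ℝ) : chi θ 0 = 1 := by
  unfold chi
  have := ee_int 0
  simpa using this

theorem chi_norm (θ : ι → ℝ) (x : ι → ℤ) : ‖chi θ x‖ = 1 := norm_e _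

theorem chi_sum (θ : ι → ℝ) (s : Finset ℕ) (x : ℕ → ι → ℤ) :
    chi θ (∑ k ∈ s, x k) = ∏ k ∈ s, chi θ (x k) := by
  classical
  induction s using Finset.induction_on with
  | empty => simp [chi_zero]
  | insert a s ha ih => rw [Finset.sum_insert ha, Finset.prod_insert ha, chi_add, ih]

theorem chi_measurable (θ : ι → ℝ) : Measurable (chi θ) := by
  unfold chi
  refine Pool.Agent.N24.KM.Wey.continuous_e.measurable.comp ?_
  refine Finset.measurable_fun_sum _ fun i _ => ?_
  refine Measurable.const_mul ?_ _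
  exact (measurable_from_top (f := fun z : ℤ => (z : ℝ))).comp (measurable_pi_apply i)

variable {P : Measure Ω} [IsProbabilityMeasure P]

theorem mean_prod (X : ℕ → Ω → ι → ℤ) (hX : ∀ n, Measurable (X n)) (hind : iIndepFun X P)
    (hid : ∀ n, IdentDistrib (X n) (X 0) P P) (θ : ι → ℝ) (n m : ℕ) :
    ∫ ω, chi θ (∑ k ∈ Finset.range m, X (n + k) ω) ∂P = (∫ ω, chi θ (X 0 ω) ∂P) ^ m := by
  have hinj : Function.Injective (fun k : Fin m => n + (k : ℕ)) := by
    intro a b hab
    simp only [Nat.add_left_cancel_iff] at hab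
    exact Fin.ext hab
  have h1 := hind.precomp hinj
  have h2 := h1.integral_fun_prod_comp (f := fun _ => chi θ) (fun k => (hX _).aemeasurable)
    (fun k => (chi_measurable θ).aestronglyMeasurable)
  have h3 : ∀ ω, chi θ (∑ k ∈ Finset.range m, X (n + k) ω) = ∏ k : Fin m, chi θ (X (n + k) ω) := by
    intro ω
    rw [chi_sum, Finset.prod_range]
  simp only [h3]
  rw [h2]
  have h4 : ∀ k : Fin m, ∫ ω, chi θ (X (n + (k : ℕ)) ω) ∂P = ∫ ω, chi θ (X 0 ω) ∂P := fun k =>
    ((hid _).comp (chi_measurable θ)).integral_eq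
  rw [Finset.prod_congr rfl fun k _ => h4 k, Finset.prod_const, Finset.card_univ, Fintype.card_fin]

theorem walk_measurable (v : ι → ℤ) (X : ℕ → Ω → ι → ℤ) (hX : ∀ n, Measurable (X n)) (n : ℕ) :
    Measurable (walk v X n) := by
  unfold walk
  exact (Finset.measurable_fun_sum _ fun k _ => hX k).const_add v

/-- the exponential sums along a random walk -/
theorem walk_mean (v : ι → ℤ) (X : ℕ → Ω → ι → ℤ) (hX : ∀ n, Measurable (X n)) (hind : iIndepFun X P)
    (hid : ∀ n, IdentDistrib (X n) (X 0) P P) (θ : ι → ℝ) (hφ : ∫ ω, chi θ (X 0 ω) ∂P ≠ 1) :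
    ∀ᵐ ω ∂P, Tendsto (fun N : ℕ => (1 / (N : ℂ)) * ∑ n ∈ Finset.range N, chi θ (walk v X n ω)) atTop
      (𝓝 0) := by
  set φ : ℂ := ∫ ω, chi θ (X 0 ω) ∂P with hφdef
  have hφ1 : ‖φ‖ ≤ 1 := by
    rw [hφdef]
    refine (norm_integral_le_integral_norm _).trans ?_
    simp [chi_norm]
  set C : ℝ := 2 / ‖1 - φ‖ with hC
  have h1φ : 0 < ‖1 - φ‖ := norm_pos_iff.2 (sub_ne_zero.2 (Ne.symm hφ))
  have hC0 : 0 ≤ C := by positivity
  set u : ℕ → Ω → ℂ := fun n ω => chi θ (walk v X n ω) with hu
  have hum : ∀ n, Measurable (u n) := fun n => (chi_measurable θ).comp (walk_measurable v X hX n)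
  have hu1 : ∀ n ω, ‖u n ω‖ = 1 := fun n ω => chi_norm _ _
  have hSm : ∀ N, Measurable (fun ω => ∑ n ∈ Finset.range N, u n ω) := fun N =>
    Finset.measurable_fun_sum _ fun n _ => hum n
  have hSb : ∀ N ω, ‖∑ n ∈ Finset.range N, u n ω‖ ≤ N := by
    intro N ω
    refine (norm_sum_le _ _).trans ?_
    simp [hu1]
  -- correlations
  have hcor : ∀ n m : ℕ, ∫ ω, u (n + m) ω * (starRingEnd ℂ) (u n ω) ∂P = φ ^ m := by
    intro n m
    rw [hφdef, ← mean_prod X hX hind hid θ n m]
    refine integral_congr_ae (Eventually.of_forall fun ω => ?_)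
    simp only [hu]
    have h2 : walk v X (n + m) ω = walk v X n ω + ∑ k ∈ Finset.range m, X (n + k) ω := by
      unfold walk
      rw [Finset.sum_range_add, add_assoc]
    rw [h2, chi_add]
    have h3 : chi θ (walk v X n ω) * (starRingEnd ℂ) (chi θ (walk v X n ω)) = 1 := by
      rw [Complex.mul_conj, Complex.normSq_eq_norm_sq, chi_norm]
      simp
    linear_combination (chi θ (∑ k ∈ Finset.range m, X (n + k) ω)) * h3
  have hint : ∀ n m : ℕ, Integrable (fun ω => u m ω * (starRingEnd ℂ) (u n ω)) P := by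
    intro n m
    refine Integrable.of_bound ((hum m).mul
      (Complex.continuous_conj.measurable.comp (hum n))).aestronglyMeasurable 1
      (Eventually.of_forall fun ω => ?_)
    rw [norm_mul, RCLike.norm_conj, hu1, hu1, one_mul]
  -- second moments
  have hgeo : ∀ N : ℕ, ‖∑ n ∈ Finset.range N, φ ^ (N - n)‖ ≤ C := by
    intro N
    have h4 : (1 - φ) * ∑ n ∈ Finset.range N, φ ^ (N - n) = φ * (1 - φ ^ N) := by
      have h5 : ∑ n ∈ Finset.range N, φ ^ (N - n) = φ * ∑ n ∈ Finset.range N, φ ^ n := by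
        rw [← Finset.sum_range_reflect, Finset.mul_sum]
        refine Finset.sum_congr rfl fun n hn => ?_
        rw [← pow_succ']
        congr 1
        have := Finset.mem_range.1 hn
        omega
      rw [h5]
      have h6 := mul_neg_geom_sum φ N
      linear_combination φ * h6
    have h7 : ‖∑ n ∈ Finset.range N, φ ^ (N - n)‖ * ‖1 - φ‖ ≤ 2 := by
      rw [← norm_mul, mul_comm, h4, norm_mul]
      have h8 : ‖1 - φ ^ N‖ ≤ 2 := by
        refine (norm_sub_le _ _).trans ?_
        rw [norm_one, norm_pow]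
        have := pow_le_one₀ (norm_nonneg φ) hφ1 (n := N)
        linarith
      nlinarith [norm_nonneg φ, norm_nonneg (1 - φ ^ N)]
    rw [hC, le_div_iff₀ h1φ]
    exact h7
  have hsq : ∀ N : ℕ, Integrable (fun ω => ‖∑ n ∈ Finset.range N, u n ω‖ ^ 2) P := by
    intro N
    refine Integrable.of_bound ((hSm N).norm.pow_const 2).aestronglyMeasurable ((N : ℝ) ^ 2)
      (Eventually.of_forall fun ω => ?_)
    rw [Real.norm_of_nonneg (by positivity)]
    gcongr
    exact hSb N ω
  have hsecond : ∀ N : ℕ, ∫ ω, ‖∑ n ∈ Finset.range N, u n ω‖ ^ 2 ∂P ≤ (1 + 2 * C) * N := by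
    intro N
    induction N with
    | zero => simp
    | succ N ih =>
      have h9 : ∀ ω, ‖∑ n ∈ Finset.range (N + 1), u n ω‖ ^ 2 =
          ‖∑ n ∈ Finset.range N, u n ω‖ ^ 2 + 1 +
            2 * (∑ n ∈ Finset.range N, u N ω * (starRingEnd ℂ) (u n ω)).re := by
        intro ω
        rw [Finset.sum_range_succ, add_comm (∑ n ∈ Finset.range N, u n ω), ← Complex.normSq_eq_norm_sq,
          Complex.normSq_add, Complex.normSq_eq_norm_sq, Complex.normSq_eq_norm_sq, hu1, map_sum,
          Finset.mul_sum]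
        ring
      simp only [h9]
      have hI : Integrable (fun ω => ∑ n ∈ Finset.range N, u N ω * (starRingEnd ℂ) (u n ω)) P :=
        integrable_finset_sum _ fun n _ => hint n N
      have hIre : Integrable (fun ω => (∑ n ∈ Finset.range N, u N ω * (starRingEnd ℂ) (u n ω)).re) P :=
        hI.re
      have hIadd : Integrable (fun ω => ‖∑ n ∈ Finset.range N, u n ω‖ ^ 2 + 1) P :=
        (hsq N).add (integrable_const 1)
      rw [integral_add hIadd (hIre.const_mul 2), integral_add (hsq N) (integrable_const 1),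
        integral_const_mul]
      have h10 : ∫ ω, (∑ n ∈ Finset.range N, u N ω * (starRingEnd ℂ) (u n ω)).re ∂P =
          (∑ n ∈ Finset.range N, φ ^ (N - n)).re := by
        have h11 := integral_re hI
        simp only [RCLike.re_to_complex] at h11
        rw [h11, integral_finset_sum _ fun n _ => hint n N]
        congr 1
        refine Finset.sum_congr rfl fun n hn => ?_
        have hnN := Finset.mem_range.1 hn
        have h12 := hcor n (N - n)
        rw [Nat.add_sub_cancel' hnN.le] at h12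
        exact h12
      rw [h10]
      have h13 : (∑ n ∈ Finset.range N, φ ^ (N - n)).re ≤ C :=
        (Complex.re_le_norm _).trans (hgeo N)
      have h14 : ∫ _ω : Ω, (1 : ℝ) ∂P = 1 := by simp
      rw [h14]
      push_cast
      linarith
  refine Pool.Agent.N24.KM.t_AE Ω P u (1 + 2 * C) hum (fun n ω => (hu1 n ω).le) fun N => ?_
  refine (hsecond N).trans ?_
  rcases Nat.eq_zero_or_pos N with h0 | h0
  · subst h0
    simp
  · have h15 : (1 : ℝ) ≤ Real.sqrt N := by
      rw [Real.one_le_sqrt]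
      exact_mod_cast h0
    have h16 : 0 ≤ (1 + 2 * C) * (N : ℝ) := by positivity
    nlinarith

theorem phi_ne (X₀ : Ω → ι → ℤ) (hX : Measurable X₀)
    (hgen : AddSubgroup.closure {x : ι → ℤ | P (X₀ ⁻¹' {x}) ≠ 0} = ⊤) (θ : ι → ℝ)
    (hθ : ∃ i, ∀ n : ℤ, θ i ≠ n) : ∫ ω, chi θ (X₀ ω) ∂P ≠ 1 := by
  classical
  intro h1
  have hm : Measurable (fun ω => chi θ (X₀ ω)) := (chi_measurable θ).comp hX
  have hI : Integrable (fun ω => chi θ (X₀ ω)) P :=
    Integrable.of_bound hm.aestronglyMeasurable 1 (Eventually.of_forall fun ω => (chi_norm _ _).le)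
  have hIre : Integrable (fun ω => (chi θ (X₀ ω)).re) P := hI.re
  have h2 : ∫ ω, (1 - (chi θ (X₀ ω)).re) ∂P = 0 := by
    rw [integral_sub (integrable_const 1) hIre]
    have h3 := integral_re hI
    simp only [RCLike.re_to_complex] at h3
    rw [h3, h1]
    simp
  have h4 : (fun ω => 1 - (chi θ (X₀ ω)).re) =ᵐ[P] 0 := by
    have hIsub : Integrable (fun ω => 1 - (chi θ (X₀ ω)).re) P := (integrable_const 1).sub hIre
    refine (integral_eq_zero_iff_of_nonneg (fun ω => ?_) hIsub).1 h2
    have := Complex.re_le_norm (chi θ (X₀ ω))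
    rw [chi_norm] at this
    simp only [Pi.zero_apply]
    linarith
  -- the subgroup
  let H : AddSubgroup (ι → ℤ) :=
    { carrier := {x | chi θ x = 1}
      zero_mem' := chi_zero θ
      add_mem' := by
        intro a b ha hb
        simp only [Set.mem_setOf_eq] at ha hb ⊢
        rw [chi_add, ha, hb, one_mul]
      neg_mem' := by
        intro a ha
        simp only [Set.mem_setOf_eq] at ha ⊢
        have h5 : chi θ (-a + a) = chi θ (-a) * chi θ a := chi_add θ _ _
        rw [neg_add_cancel, chi_zero, ha, mul_one] at h5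
        exact h5.symm }
  have hsub : {x : ι → ℤ | P (X₀ ⁻¹' {x}) ≠ 0} ⊆ H := by
    intro x hx
    by_contra hxH
    apply hx
    have h6 : X₀ ⁻¹' {x} ⊆ {ω | ¬ (1 - (chi θ (X₀ ω)).re = (0 : Ω → ℝ) ω)} := by
      intro ω hω
      simp only [Set.mem_preimage, Set.mem_singleton_iff] at hω
      simp only [Set.mem_setOf_eq, Pi.zero_apply, hω]
      intro h7
      apply hxH
      have h8 : (chi θ x).re = 1 := by linarith
      have h9 : (chi θ x).im = 0 := by
        have h10 := Complex.sq_norm (chi θ x)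
        rw [chi_norm, Complex.normSq_apply, h8] at h10
        nlinarith
      exact Complex.ext h8 h9
    exact measure_mono_null h6 h4
  have htop : H = ⊤ := by
    rw [eq_top_iff, ← hgen, AddSubgroup.closure_le]
    exact hsub
  obtain ⟨i, hi⟩ := hθ
  have h11 : chi θ (Pi.single i 1) = 1 := by
    have : (Pi.single i 1 : ι → ℤ) ∈ H := by
      rw [htop]
      trivial
    exact this
  have h12 : ∑ j, θ j * (((Pi.single i 1 : ι → ℤ) j : ℤ) : ℝ) = θ i := by
    rw [Finset.sum_eq_single i]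
    · simp
    · intro j _ hj
      rw [Pi.single_eq_of_ne hj]
      simp
    · intro h
      exact absurd (Finset.mem_univ i) h
  unfold chi at h11
  rw [h12] at h11
  obtain ⟨n, hn⟩ := e_eq_one h11
  exact hi n hn

/-- **random walks visit all residue classes** -/
theorem walks (v : ι → ℤ) (X : ℕ → Ω → ι → ℤ) (hX : ∀ n, Measurable (X n)) (hind : iIndepFun X P)
    (hid : ∀ n, IdentDistrib (X n) (X 0) P P)
    (hgen : AddSubgroup.closure {x : ι → ℤ | P (X 0 ⁻¹' {x}) ≠ 0} = ⊤) :
    ∀ᵐ ω ∂P, ∀ q : ℕ, 0 < q → ∀ G : ι → ℤ,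
      Often (fun n => walk v X n ω) (cls q G) (((q : ℝ) ^ Fintype.card ι)⁻¹) := by
  have h1 : ∀ p : ℕ × (ι → ℕ), ∀ᵐ ω ∂P, 0 < p.1 → (∀ i, p.2 i < p.1) → p.2 ≠ 0 →
      Tendsto (fun N : ℕ => (1 / (N : ℂ)) * ∑ n ∈ Finset.range N,
        chi (fun i => (p.2 i : ℝ) / p.1) (walk v X n ω)) atTop (𝓝 0) := by
    rintro ⟨q, h⟩
    by_cases hh : 0 < q ∧ (∀ i, h i < q) ∧ h ≠ 0
    · obtain ⟨hq, hlt, h0⟩ := hh
      have hqR : (0 : ℝ) < q := by exact_mod_cast hq
      have h2 := walk_mean v X hX hind hid (fun i => (h i : ℝ) / q) (phi_ne (X 0) (hX 0) hgen _ (by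
        obtain ⟨i, hi⟩ : ∃ i, h i ≠ 0 := by
          by_contra hcon
          push Not at hcon
          exact h0 (funext hcon)
        refine ⟨i, fun n hn => ?_⟩
        rw [div_eq_iff hqR.ne'] at hn
        have h3 : (h i : ℤ) = n * q := by exact_mod_cast hn
        have h4 : (0 : ℤ) < h i := by exact_mod_cast Nat.pos_of_ne_zero hi
        have h5 : (h i : ℤ) < q := by exact_mod_cast hlt i
        have hqZ : (0 : ℤ) < q := by exact_mod_cast hq
        rw [h3] at h4 h5
        have h6 : 0 < n := pos_of_mul_pos_left h4 hqZ.le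
        nlinarith))
      filter_upwards [h2] with ω hω _ _ _
      exact hω
    · refine Eventually.of_forall fun ω h2 h3 h4 => absurd ⟨h2, h3, h4⟩ hh
  filter_upwards [ae_all_iff.2 h1] with ω hω q hq G
  refine often_int hq G _ fun h hlt h0 => ?_
  exact hω (q, h) hq hlt h0

end Pool.Agent.T63.RC
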